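import Mathlib

/-!
# Tate classes over finite fields: reduction to codimension two, definitions

A *Weil number of weight `w`* (for the integer `q`) is an algebraic integer all of whose complex
conjugates have absolute value `√q ^ w`: these are the eigenvalues of the Frobenius on the
cohomology in degree `w` of the smooth projective varieties over a field with `q` elements (Deligne).
A pair `(w, a)` stands for an eigenvector with the eigenvalue `a` in the cohomology of degree `w`,
a multiset of such pairs for a product of eigenvectors on a product of varieties.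
-/

namespace Pool.Agent.ThreeC

/-- `a` is a Weil number of weight `w`: an algebraic integer such that all complex conjugates of
`a` have absolute value `√q ^ w`. -/
def IsWeil (q w : ℕ) (a : ℂ) : Prop :=
  IsIntegral ℤ a ∧ ∀ b : ℂ, IsConjRoot ℚ a b → ‖b‖ ^ 2 = (q : ℝ) ^ w

/-- The positive square root of `q`. -/
noncomputable def root (q : ℕ) : ℂ := ((√(q : ℝ) : ℝ) : ℂ)

/-- A Tate multiset: finitely many pairs `(w, a)`, `w > 0`, `a` a Weil number of weight `w`, such
that the sum of the weights is even, say `2 r`, and the product of the numbers `a` is `q ^ r` times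
a root of unity. -/
def IsTate (q : ℕ) (s : Multiset (ℕ × ℂ)) : Prop :=
  (∀ x ∈ s, 0 < x.1 ∧ IsWeil q x.1 x.2) ∧
    ∃ r N : ℕ, (s.map Prod.fst).sum = 2 * r ∧ 0 < N ∧
      (s.map Prod.snd).prod ^ N = (q : ℂ) ^ (r * N)

/-- The smallest set of multisets which is closed under sums and under removing pairs
`{(1, a), (1, q / a)}`, `a` of weight one, and which contains
* the Tate multisets `{(1, a), (1, b)}`;
* `{(1, a), (1, b), (1, c), (1, √q)}` for `a, b, c` of weight one with `a b c = q √q`;
* `{(w, b ^ w)}` together with `w` times `(1, q / b)`, for `w > 0` and `b` of weight one. -/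
inductive Gen (q : ℕ) : Multiset (ℕ × ℂ) → Prop
  | pair {a b : ℂ} : IsTate q {(1, a), (1, b)} → Gen q {(1, a), (1, b)}
  | four {a b c : ℂ} : IsWeil q 1 a → IsWeil q 1 b → IsWeil q 1 c → a * b * c = q * root q →
      Gen q {(1, a), (1, b), (1, c), (1, root q)}
  | power {w : ℕ} {b : ℂ} : 0 < w → IsWeil q 1 b →
      Gen q ({(w, b ^ w)} + w • {(1, (q : ℂ) / b)})
  | add {s t : Multiset (ℕ × ℂ)} : Gen q s → Gen q t → Gen q (s + t)
  | cancel {s : Multiset (ℕ × ℂ)} {a : ℂ} : IsWeil q 1 a →
      Gen q (s + {(1, a), (1, (q : ℂ) / a)}) → Gen q s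

end Pool.Agent.ThreeC
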