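import Pool.Agent.ThreeC.Defs

/-!
# Tate classes over finite fields: reduction to codimension two (weight one)

A *Weil `q`-number* (of weight one) is an algebraic integer all of whose complex conjugates have
absolute value `√q`. We call a multiset of `2 r` Weil `q`-numbers a Tate multiset if its product is
`q ^ r` times a root of unity. We prove that all of them are obtained from those with two elements
and from the multisets `{a, b, c, √q}`, `a b c = q √q`, by sums and by removing pairs `{a, q / a}`.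
The case of arbitrary weights is in `Pool.Agent.ThreeC.Weights`.
-/

namespace Pool.Agent.ThreeC

open Multiset

/-- `a` is a Weil number of weight one (see `isWeilOne_iff`). -/
def IsWeilOne (q : ℕ) (a : ℂ) : Prop :=
  IsIntegral ℤ a ∧ ∀ b : ℂ, IsConjRoot ℚ a b → ‖b‖ ^ 2 = q

/-- A Tate multiset of weight one: `2 r` Weil `q`-numbers whose product is `q ^ r` times a root of
unity. -/
def IsTateOne (q : ℕ) (s : Multiset ℂ) : Prop :=
  (∀ a ∈ s, IsWeilOne q a) ∧
    ∃ r N : ℕ, s.card = 2 * r ∧ 0 < N ∧ s.prod ^ N = (q : ℂ) ^ (r * N)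

/-- The smallest set of multisets which contains the Tate multisets with two elements and the
multisets `{a, b, c, √q}` of Weil `q`-numbers with `a b c = q √q`, and which is closed under sums
and under removing pairs `{a, q / a}`, `a` a Weil `q`-number. -/
inductive GenOne (q : ℕ) : Multiset ℂ → Prop
  | pair {a b : ℂ} : IsTateOne q {a, b} → GenOne q {a, b}
  | four {a b c : ℂ} : IsWeilOne q a → IsWeilOne q b → IsWeilOne q c → a * b * c = q * root q →
      GenOne q {a, b, c, root q}
  | add {s t : Multiset ℂ} : GenOne q s → GenOne q t → GenOne q (s + t)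
  | cancel {s : Multiset ℂ} {a : ℂ} : IsWeilOne q a → GenOne q (s + {a, (q : ℂ) / a}) → GenOne q s

variable {q : ℕ} {a b c : ℂ} {s t : Multiset ℂ}

lemma root_sq : root q ^ 2 = q := by
  unfold root
  rw [← Complex.ofReal_pow, Real.sq_sqrt (Nat.cast_nonneg q)]
  simp

lemma root_ne (hq : 0 < q) : root q ≠ 0 := by
  intro h
  have := root_sq (q := q)
  rw [h] at this
  have h2 : (q : ℂ) = 0 := by rw [← this]; norm_num
  exact hq.ne' (by exact_mod_cast h2)

lemma div_root (hq : 0 < q) : (q : ℂ) / root q = root q := by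
  rw [div_eq_iff (root_ne hq), ← pow_two, root_sq]

lemma IsWeilOne.isIntegral (h : IsWeilOne q a) : IsIntegral ℚ a := h.1.tower_top

lemma IsWeilOne.norm (h : IsWeilOne q a) : ‖a‖ ^ 2 = q := h.2 a (IsConjRoot.refl)

lemma IsWeilOne.ne_zero (hq : 0 < q) (h : IsWeilOne q a) : a ≠ 0 := by
  rintro rfl
  have := h.norm
  rw [norm_zero] at this
  have h2 : (q : ℝ) = 0 := by rw [← this]; norm_num
  exact hq.ne' (by exact_mod_cast h2)

lemma IsWeilOne.div_eq (hq : 0 < q) (h : IsWeilOne q a) : (q : ℂ) / a = (starRingEnd ℂ) a := by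
  rw [div_eq_iff (h.ne_zero hq), mul_comm, Complex.mul_conj, Complex.normSq_eq_norm_sq, h.norm]
  simp

lemma IsWeilOne.div (hq : 0 < q) (h : IsWeilOne q a) : IsWeilOne q ((q : ℂ) / a) := by
  rw [h.div_eq hq]
  refine ⟨?_, fun b hb => ?_⟩
  · exact h.1.map (Complex.conjAe.restrictScalars ℤ : ℂ ≃ₐ[ℤ] ℂ)
  · refine h.2 b (IsConjRoot.trans ?_ hb)
    exact isConjRoot_of_algEquiv a (Complex.conjAe.restrictScalars ℚ : ℂ ≃ₐ[ℚ] ℂ)

/-- Conjugates of a square root come from conjugates of the factors. -/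
lemma conj_sqrt {F E : Type*} [Field F] [Field E] [Algebra F E] [IsAlgClosed E] {c b a d : E}
    (hc : IsIntegral F c) (h : IsConjRoot F c b) (ha : IsIntegral F a) (hd : IsIntegral F d)
    (hk : c ^ 2 = a * d) :
    ∃ a' d' : E, IsConjRoot F a a' ∧ IsConjRoot F d d' ∧ b ^ 2 = a' * d' := by
  have hb : IsIntegral F b := h.isIntegral hc
  have hcL : c ∈ algebraicClosure F E := (mem_algebraicClosure_iff).2 hc.isAlgebraic
  have hbL : b ∈ algebraicClosure F E := (mem_algebraicClosure_iff).2 hb.isAlgebraic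
  have haL : a ∈ algebraicClosure F E := (mem_algebraicClosure_iff).2 ha.isAlgebraic
  have hdL : d ∈ algebraicClosure F E := (mem_algebraicClosure_iff).2 hd.isAlgebraic
  have h1 : IsConjRoot F ((algebraicClosure F E).val ⟨c, hcL⟩)
      ((algebraicClosure F E).val ⟨b, hbL⟩) := h
  have h2 : IsConjRoot F (⟨c, hcL⟩ : algebraicClosure F E) ⟨b, hbL⟩ :=
    (isConjRoot_algHom_iff (algebraicClosure F E).val).1 h1
  obtain ⟨σ, hσ⟩ := isConjRoot_iff_exists_algEquiv.1 h2.symm
  have key : (⟨c, hcL⟩ : algebraicClosure F E) ^ 2 = ⟨a, haL⟩ * ⟨d, hdL⟩ := Subtype.ext hk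
  have key2 := congrArg σ key
  rw [map_pow, map_mul, hσ] at key2
  refine ⟨(σ ⟨a, haL⟩ : algebraicClosure F E), (σ ⟨d, hdL⟩ : algebraicClosure F E), ?_, ?_, ?_⟩
  · exact (isConjRoot_algHom_iff (algebraicClosure F E).val (x := ⟨a, haL⟩)
      (y := σ ⟨a, haL⟩)).2 (isConjRoot_of_algEquiv _ σ)
  · exact (isConjRoot_algHom_iff (algebraicClosure F E).val (x := ⟨d, hdL⟩)
      (y := σ ⟨d, hdL⟩)).2 (isConjRoot_of_algEquiv _ σ)
  · exact congrArg (fun x : algebraicClosure F E => (x : E)) key2

lemma IsWeilOne.sqrt (ha : IsWeilOne q a) (hb : IsWeilOne q b) (h : c ^ 2 = a * b) : IsWeilOne q c := by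
  have hc : IsIntegral ℤ c := by
    refine IsIntegral.of_pow (n := 2) two_pos ?_
    rw [h]; exact ha.1.mul hb.1
  refine ⟨hc, fun d hd => ?_⟩
  obtain ⟨a', b', h1, h2, h3⟩ := conj_sqrt hc.tower_top hd ha.isIntegral hb.isIntegral h
  have hna : ‖a'‖ ^ 2 = q := ha.2 _ h1
  have hnb : ‖b'‖ ^ 2 = q := hb.2 _ h2
  have h4 : (‖d‖ ^ 2) ^ 2 = (q : ℝ) ^ 2 := by
    have := congrArg (fun x : ℂ => ‖x‖ ^ 2) h3
    simp only [norm_pow, norm_mul, mul_pow, hna, hnb] at this
    rw [this]; ring
  exact (sq_eq_sq₀ (by positivity) (Nat.cast_nonneg q)).1 h4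

lemma isWeilOne_root : IsWeilOne q (root q) := by
  have hr : IsIntegral ℤ (root q) := by
    refine IsIntegral.of_pow (n := 2) two_pos ?_
    rw [root_sq]
    exact isIntegral_natCast q
  refine ⟨hr, fun b hb => ?_⟩
  obtain ⟨a', b', h1, h2, h3⟩ := conj_sqrt (F := ℚ) (a := ((q : ℚ) : ℂ)) (d := ((1 : ℚ) : ℂ))
    hr.tower_top hb (isIntegral_algebraMap (R := ℚ) (A := ℂ) (x := (q : ℚ)))
    (isIntegral_algebraMap (R := ℚ) (A := ℂ) (x := (1 : ℚ))) (by rw [root_sq]; simp)
  have e1 : a' = ((q : ℚ) : ℂ) := IsConjRoot.eq_algebraMap (K := ℚ) (S := ℂ) h1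
  have e2 : b' = ((1 : ℚ) : ℂ) := IsConjRoot.eq_algebraMap (K := ℚ) (S := ℂ) h2
  have := congrArg (fun x : ℂ => ‖x‖) h3
  rw [e1, e2] at this
  simpa using this

/-! ### The closure -/

lemma GenOne.zero (hq : 0 < q) : GenOne q 0 := by
  have h1 : GenOne q {root q, (q : ℂ) / root q} := by
    refine GenOne.pair ⟨?_, 1, 1, by simp, one_pos, ?_⟩
    · intro x hx
      rw [div_root hq] at hx
      simp only [Multiset.insert_eq_cons, mem_cons, mem_singleton, or_self] at hx
      rw [hx]; exact isWeilOne_root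
    · rw [div_root hq]
      simp [← pow_two, root_sq]
  exact GenOne.cancel (a := root q) isWeilOne_root (by rwa [zero_add])

lemma GenOne.nsmul (hq : 0 < q) (h : GenOne q s) (n : ℕ) : GenOne q (n • s) := by
  induction n with
  | zero => rw [zero_nsmul]; exact GenOne.zero hq
  | succ n ih => rw [succ_nsmul]; exact GenOne.add ih h

lemma GenOne.cancel_nsmul (ha : IsWeilOne q a) (n : ℕ) (h : GenOne q (s + n • {a, (q : ℂ) / a})) :
    GenOne q s := by
  induction n with
  | zero => simpa using h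
  | succ n ih =>
    refine ih (GenOne.cancel ha ?_)
    rwa [add_assoc, ← succ_nsmul]

lemma two_eq (x : ℂ) : (2 : ℕ) • ({x} : Multiset ℂ) = {x, x} := by
  rw [two_nsmul]; rfl

lemma quad_eq (x y z w : ℂ) : ({x, y, z, w} : Multiset ℂ) = {x} + {y} + {z} + {w} := by
  rw [add_assoc, add_assoc]; rfl

lemma pair_eq (x y : ℂ) : ({x, y} : Multiset ℂ) = {x} + {y} := rfl

/-- The midpoint relation. -/
lemma GenOne.mid (hq : 0 < q) (ha : IsWeilOne q a) (hb : IsWeilOne q b) (hc : c ^ 2 = a * b) :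
    GenOne q ({a} + {b} + {(q : ℂ) / c} + {(q : ℂ) / c}) := by
  have hr := root_ne hq
  have hr2 := root_sq (q := q)
  have hcW : IsWeilOne q c := ha.sqrt hb hc
  obtain ⟨x, hx⟩ := IsAlgClosed.exists_pow_nat_eq (a * root q) two_pos
  have hxW : IsWeilOne q x := ha.sqrt isWeilOne_root hx
  have hx0 := hxW.ne_zero hq
  have ha0 := ha.ne_zero hq
  have hb0 := hb.ne_zero hq
  have hc0 := hcW.ne_zero hq
  set y : ℂ := c * root q / x with hy
  have hxy : x * y = c * root q := by rw [hy]; field_simp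
  have hy2 : y ^ 2 = b * root q := by
    rw [hy, div_pow, mul_pow, hx, hc, hr2, div_eq_iff (mul_ne_zero ha0 hr)]
    linear_combination (-a * b) * hr2
  have hyW : IsWeilOne q y := hb.sqrt isWeilOne_root hy2
  have hy0 := hyW.ne_zero hq
  have h1 : GenOne q {(q : ℂ) / x, (q : ℂ) / x, a, root q} := by
    refine GenOne.four (hxW.div hq) (hxW.div hq) ha ?_
    have e : (q : ℂ) / x * (q / x) * a = q * (q * a) / x ^ 2 := by field_simp
    rw [e, hx, div_eq_iff (mul_ne_zero ha0 hr)]
    linear_combination (-(q : ℂ) * a) * hr2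
  have h2 : GenOne q {(q : ℂ) / y, (q : ℂ) / y, b, root q} := by
    refine GenOne.four (hyW.div hq) (hyW.div hq) hb ?_
    have e : (q : ℂ) / y * (q / y) * b = q * (q * b) / y ^ 2 := by field_simp
    rw [e, hy2, div_eq_iff (mul_ne_zero hb0 hr)]
    linear_combination (-(q : ℂ) * b) * hr2
  have h3 : GenOne q {x, y, (q : ℂ) / c, root q} := by
    refine GenOne.four hxW hyW (hcW.div hq) ?_
    rw [hxy]; field_simp
  rw [quad_eq] at h1 h2 h3
  have h4 := (h1.add h2).add (h3.add h3)
  refine GenOne.cancel_nsmul hxW 2 (GenOne.cancel_nsmul hyW 2 (GenOne.cancel_nsmul isWeilOne_root 2 ?_))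
  rw [div_root hq]
  convert h4 using 1
  simp only [pair_eq, two_nsmul]
  abel

/-- Every multiset of `2 ^ k` Weil numbers is equivalent to `2 ^ k` copies of a mean. -/
lemma GenOne.mean (hq : 0 < q) (k : ℕ) : ∀ s : Multiset ℂ, s.card = 2 ^ k → (∀ a ∈ s, IsWeilOne q a) →
    ∃ r, IsWeilOne q r ∧ r ^ (2 ^ k) = s.prod ∧ GenOne q (s + (2 ^ k) • {(q : ℂ) / r}) := by
  induction k with
  | zero =>
    intro s hs hW
    rw [pow_zero] at hs
    obtain ⟨a, rfl⟩ := Multiset.card_eq_one.1 hs
    have ha : IsWeilOne q a := hW a (by simp)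
    refine ⟨a, ha, by simp, ?_⟩
    rw [pow_zero, one_nsmul]
    refine GenOne.pair (a := a) (b := (q : ℂ) / a) ⟨?_, 1, 1, by simp, one_pos, ?_⟩
    · intro x hx
      simp only [Multiset.insert_eq_cons, mem_cons, mem_singleton] at hx
      rcases hx with rfl | rfl
      · exact ha
      · exact ha.div hq
    · have := ha.ne_zero hq
      simp only [Multiset.insert_eq_cons, Multiset.prod_cons, Multiset.prod_singleton, pow_one,
        mul_one]
      field_simp
  | succ k ih =>
    intro s hs hW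
    obtain ⟨s₁, s₂, rfl, h1, h2⟩ : ∃ s₁ s₂ : Multiset ℂ, s = s₁ + s₂ ∧ s₁.card = 2 ^ k ∧
        s₂.card = 2 ^ k := by
      induction s using Quotient.inductionOn with
      | h l =>
        have hl : l.length = 2 ^ (k + 1) := hs
        rw [pow_succ] at hl
        refine ⟨(l.take (2 ^ k) : List ℂ), (l.drop (2 ^ k) : List ℂ), ?_, ?_, ?_⟩
        · rw [Multiset.coe_add, List.take_append_drop]; rfl
        · rw [Multiset.coe_card, List.length_take]; omega
        · rw [Multiset.coe_card, List.length_drop]; omega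
    obtain ⟨r₁, hr₁, hp₁, hg₁⟩ := ih s₁ h1 fun a ha => hW a (Multiset.mem_add.2 (Or.inl ha))
    obtain ⟨r₂, hr₂, hp₂, hg₂⟩ := ih s₂ h2 fun a ha => hW a (Multiset.mem_add.2 (Or.inr ha))
    obtain ⟨r, hr⟩ := IsAlgClosed.exists_pow_nat_eq (r₁ * r₂) two_pos
    have hrW : IsWeilOne q r := hr₁.sqrt hr₂ hr
    refine ⟨r, hrW, ?_, ?_⟩
    · rw [pow_succ', pow_mul, hr, mul_pow, hp₁, hp₂, Multiset.prod_add]
    · have h3 := (GenOne.mid hq hr₁ hr₂ hr).nsmul hq (2 ^ k)
      have h4 := (hg₁.add hg₂).add h3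
      refine GenOne.cancel_nsmul hr₁ (2 ^ k) (GenOne.cancel_nsmul hr₂ (2 ^ k) ?_)
      convert h4 using 1
      simp only [pair_eq, nsmul_add, pow_succ, mul_nsmul, two_nsmul]
      abel

/-- Every Tate multiset lies in the closure. -/
theorem gen_of_isTateOne (hq : 0 < q) (h : IsTateOne q s) : GenOne q s := by
  obtain ⟨hW, r, N, hc, hN, hp⟩ := h
  obtain ⟨m, hm⟩ : ∃ m, r + m = 2 ^ r := ⟨2 ^ r - r, by have := Nat.lt_two_pow_self (n := r); omega⟩
  have hcard : (s + m • {root q, (q : ℂ) / root q}).card = 2 ^ (r + 1) := by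
    rw [Multiset.card_add, hc, Multiset.card_nsmul]
    simp only [Multiset.insert_eq_cons, Multiset.card_cons, Multiset.card_singleton]
    rw [pow_succ, ← hm]; ring
  have hW' : ∀ a ∈ s + m • {root q, (q : ℂ) / root q}, IsWeilOne q a := by
    intro a ha
    rw [Multiset.mem_add] at ha
    rcases ha with ha | ha
    · exact hW a ha
    · have := Multiset.mem_of_mem_nsmul ha
      rw [div_root hq] at this
      simp only [Multiset.insert_eq_cons, mem_cons, mem_singleton, or_self] at this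
      rw [this]; exact isWeilOne_root
  obtain ⟨x, hx, hxp, hg⟩ := GenOne.mean hq (r + 1) _ hcard hW'
  have hprod : (s + m • {root q, (q : ℂ) / root q}).prod = s.prod * (q : ℂ) ^ m := by
    rw [Multiset.prod_add, Multiset.prod_nsmul, div_root hq]
    simp only [Multiset.insert_eq_cons, Multiset.prod_cons, Multiset.prod_singleton]
    rw [← pow_two, root_sq]
  have hxx : GenOne q {x, x} := by
    refine GenOne.pair ⟨?_, 1, 2 ^ r * N, by simp, by positivity, ?_⟩
    · intro y hy
      simp only [Multiset.insert_eq_cons, mem_cons, mem_singleton, or_self] at hy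
      rw [hy]; exact hx
    · simp only [Multiset.insert_eq_cons, Multiset.prod_cons, Multiset.prod_singleton]
      have e : (x * x) ^ (2 ^ r * N) = (x ^ 2 ^ (r + 1)) ^ N := by
        rw [← pow_two, ← pow_mul, ← pow_mul]; congr 1; ring
      rw [e, hxp, hprod, mul_pow, hp, ← pow_mul, ← pow_add, one_mul, ← hm]
      congr 1; ring
  have h5 := (hxx.nsmul hq (2 ^ r)).add hg
  refine GenOne.cancel_nsmul isWeilOne_root m (GenOne.cancel_nsmul hx (2 ^ (r + 1)) ?_)
  convert h5 using 1
  simp only [pair_eq, nsmul_add, pow_succ, mul_nsmul, two_nsmul]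
  abel

/-- Every element of the closure is a Tate multiset. -/
theorem isTateOne_of_gen (hq : 0 < q) (h : GenOne q s) : IsTateOne q s := by
  have hq' : (q : ℂ) ≠ 0 := by exact_mod_cast hq.ne'
  induction h with
  | pair h => exact h
  | @four a b c ha hb hc h =>
    refine ⟨?_, 2, 1, by simp, one_pos, ?_⟩
    · intro x hx
      simp only [Multiset.insert_eq_cons, mem_cons, mem_singleton] at hx
      rcases hx with rfl | rfl | rfl | rfl
      exacts [ha, hb, hc, isWeilOne_root]
    · simp only [Multiset.insert_eq_cons, Multiset.prod_cons, Multiset.prod_singleton]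
      have : a * (b * (c * root q)) = (a * b * c) * root q := by ring
      rw [this, h, mul_assoc, ← pow_two, root_sq]; ring
  | @add s t _ _ ih1 ih2 =>
    obtain ⟨hW1, r1, N1, hc1, hN1, hp1⟩ := ih1
    obtain ⟨hW2, r2, N2, hc2, hN2, hp2⟩ := ih2
    refine ⟨?_, r1 + r2, N1 * N2, by rw [Multiset.card_add, hc1, hc2]; ring, by positivity, ?_⟩
    · intro x hx
      rcases Multiset.mem_add.1 hx with hx | hx
      exacts [hW1 x hx, hW2 x hx]
    · rw [Multiset.prod_add, mul_pow, pow_mul, hp1, mul_comm N1 N2, pow_mul t.prod, hp2,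
        ← pow_mul, ← pow_mul, ← pow_add]
      congr 1; ring
  | @cancel s a ha _ ih =>
    obtain ⟨hW, r, N, hc, hN, hp⟩ := ih
    have hc' : s.card + 2 = 2 * r := by
      rw [← hc, Multiset.card_add]
      simp
    obtain ⟨t, rfl⟩ : ∃ t, r = t + 1 := ⟨r - 1, by omega⟩
    refine ⟨fun x hx => hW x (Multiset.mem_add.2 (Or.inl hx)), t, N, by omega, hN, ?_⟩
    have ha0 := ha.ne_zero hq
    have e : (s + {a, (q : ℂ) / a}).prod = s.prod * q := by
      rw [Multiset.prod_add]
      simp only [Multiset.insert_eq_cons, Multiset.prod_cons, Multiset.prod_singleton]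
      field_simp
    rw [e, mul_pow, add_mul, one_mul, pow_add] at hp
    exact mul_right_cancel₀ (pow_ne_zero N hq') hp

/-- A multiset is a Tate multiset if and only if it is in the closure. -/
theorem isTateOne_iff_gen (hq : 0 < q) (s : Multiset ℂ) : IsTateOne q s ↔ GenOne q s :=
  ⟨gen_of_isTateOne hq, isTateOne_of_gen hq⟩

end Pool.Agent.ThreeC
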