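import Pool.Agent.ThreeC.Main

/-!
# Tate classes over finite fields: reduction to codimension two (all weights)
-/

namespace Pool.Agent.ThreeC

open Multiset

variable {q : ℕ} {a b c : ℂ}

/-- Conjugates of a root come from conjugates of the power. -/
lemma conj_pow {F E : Type*} [Field F] [Field E] [Algebra F E] [IsAlgClosed E] {c b a : E} (w : ℕ)
    (hc : IsIntegral F c) (h : IsConjRoot F c b) (hk : c ^ w = a) : IsConjRoot F a (b ^ w) := by
  have hb : IsIntegral F b := h.isIntegral hc
  have hcL : c ∈ algebraicClosure F E := (mem_algebraicClosure_iff).2 hc.isAlgebraic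
  have hbL : b ∈ algebraicClosure F E := (mem_algebraicClosure_iff).2 hb.isAlgebraic
  have h1 : IsConjRoot F ((algebraicClosure F E).val ⟨c, hcL⟩)
      ((algebraicClosure F E).val ⟨b, hbL⟩) := h
  have h2 : IsConjRoot F (⟨c, hcL⟩ : algebraicClosure F E) ⟨b, hbL⟩ :=
    (isConjRoot_algHom_iff (algebraicClosure F E).val).1 h1
  obtain ⟨σ, hσ⟩ := isConjRoot_iff_exists_algEquiv.1 h2.symm
  have h3 : IsConjRoot F ((⟨c, hcL⟩ : algebraicClosure F E) ^ w)
      (σ ((⟨c, hcL⟩ : algebraicClosure F E) ^ w)) := isConjRoot_of_algEquiv _ σ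
  rw [map_pow, hσ] at h3
  have h4 := (isConjRoot_algHom_iff (algebraicClosure F E).val).2 h3
  rw [← hk]
  exact h4

lemma isWeil_one : IsWeil q 1 a ↔ IsWeilOne q a := by
  unfold IsWeil IsWeilOne
  simp only [pow_one]

/-- A `w`-th root of a Weil number of weight `w` is a Weil number of weight one. -/
lemma IsWeil.root {w : ℕ} (hw : 0 < w) (ha : IsWeil q w a) (h : b ^ w = a) : IsWeil q 1 b := by
  have hb : IsIntegral ℤ b := IsIntegral.of_pow hw (h ▸ ha.1)
  refine ⟨hb, fun d hd => ?_⟩
  have h1 := conj_pow w hb.tower_top hd h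
  have h2 := ha.2 _ h1
  rw [norm_pow, ← pow_mul, mul_comm w 2, pow_mul] at h2
  rw [pow_one]
  exact (pow_left_inj₀ (by positivity) (Nat.cast_nonneg q) hw.ne').1 h2

/-- Conjugates of a power are powers of conjugates. -/
lemma exists_conj_pow {F E : Type*} [Field F] [Field E] [Algebra F E] [IsAlgClosed E] {c d : E}
    (w : ℕ) (hc : IsIntegral F c) (h : IsConjRoot F (c ^ w) d) :
    ∃ b : E, IsConjRoot F c b ∧ d = b ^ w := by
  have hcw : IsIntegral F (c ^ w) := hc.pow w
  have hd : IsIntegral F d := h.isIntegral hcw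
  have hcL : c ∈ algebraicClosure F E := (mem_algebraicClosure_iff).2 hc.isAlgebraic
  have hdL : d ∈ algebraicClosure F E := (mem_algebraicClosure_iff).2 hd.isAlgebraic
  have h1 : IsConjRoot F ((algebraicClosure F E).val ((⟨c, hcL⟩ : algebraicClosure F E) ^ w))
      ((algebraicClosure F E).val ⟨d, hdL⟩) := h
  have h2 := (isConjRoot_algHom_iff (algebraicClosure F E).val).1 h1
  obtain ⟨σ, hσ⟩ := isConjRoot_iff_exists_algEquiv.1 h2.symm
  refine ⟨(σ ⟨c, hcL⟩ : algebraicClosure F E), ?_, ?_⟩
  · exact (isConjRoot_algHom_iff (algebraicClosure F E).val (x := ⟨c, hcL⟩)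
      (y := σ ⟨c, hcL⟩)).2 (isConjRoot_of_algEquiv _ σ)
  · rw [map_pow] at hσ
    exact (congrArg (fun x : algebraicClosure F E => (x : E)) hσ).symm

/-- Powers of a Weil number of weight one. -/
lemma IsWeil.pow (hb : IsWeil q 1 b) (w : ℕ) : IsWeil q w (b ^ w) := by
  refine ⟨hb.1.pow w, fun d hd => ?_⟩
  obtain ⟨b', h1, h2⟩ := exists_conj_pow w hb.1.tower_top hd
  rw [h2, norm_pow, ← pow_mul, mul_comm w 2, pow_mul, hb.2 _ h1, pow_one]

lemma IsWeil.ne (hq : 0 < q) (h : IsWeil q 1 a) : a ≠ 0 := (isWeil_one.1 h).ne_zero hq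

lemma IsWeil.dual (hq : 0 < q) (h : IsWeil q 1 a) : IsWeil q 1 ((q : ℂ) / a) :=
  isWeil_one.2 ((isWeil_one.1 h).div hq)

lemma isTate_of_one {t : Multiset ℂ} (h : IsTateOne q t) :
    IsTate q (t.map fun a => ((1, a) : ℕ × ℂ)) := by
  obtain ⟨hW, r, N, hc, hN, hp⟩ := h
  refine ⟨?_, r, N, ?_, hN, ?_⟩
  · intro x hx
    obtain ⟨a, ha, rfl⟩ := Multiset.mem_map.1 hx
    exact ⟨one_pos, isWeil_one.2 (hW a ha)⟩
  · rw [Multiset.map_map]
    simp [hc]
  · rw [Multiset.map_map]
    simpa using hp

lemma gen_of_one {t : Multiset ℂ} (h : GenOne q t) : Gen q (t.map fun a => ((1, a) : ℕ × ℂ)) := by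
  induction h with
  | @pair a b h =>
    have := isTate_of_one h
    simp only [Multiset.insert_eq_cons, Multiset.map_cons, Multiset.map_singleton] at this ⊢
    exact Gen.pair this
  | @four a b c ha hb hc h =>
    simp only [Multiset.insert_eq_cons, Multiset.map_cons, Multiset.map_singleton]
    exact Gen.four (isWeil_one.2 ha) (isWeil_one.2 hb) (isWeil_one.2 hc) h
  | add _ _ ih1 ih2 => rw [Multiset.map_add]; exact ih1.add ih2
  | @cancel s a ha _ ih =>
    refine Gen.cancel (isWeil_one.2 ha) ?_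
    rw [Multiset.map_add] at ih
    simpa only [Multiset.insert_eq_cons, Multiset.map_cons, Multiset.map_singleton] using ih

lemma Gen.cancel_map {s : Multiset (ℕ × ℂ)} {t : Multiset ℂ} (hW : ∀ a ∈ t, IsWeil q 1 a)
    (h : Gen q (s + (t.map fun a => ((1, a) : ℕ × ℂ)) +
      (t.map fun a => ((1, (q : ℂ) / a) : ℕ × ℂ)))) : Gen q s := by
  induction t using Multiset.induction_on generalizing s with
  | empty => simpa using h
  | cons a t ih =>
    refine Gen.cancel (hW a (Multiset.mem_cons_self a t)) ?_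
    refine ih (fun b hb => hW b (Multiset.mem_cons_of_mem hb)) ?_
    convert h using 1
    rw [Multiset.map_cons, Multiset.map_cons]
    simp only [Multiset.insert_eq_cons, ← Multiset.singleton_add]
    abel

/-- Every multiset of Weil numbers is equivalent to a multiset of Weil numbers of weight one. -/
lemma exists_weight_one (hq : 0 < q) (s : Multiset (ℕ × ℂ))
    (hs : ∀ x ∈ s, 0 < x.1 ∧ IsWeil q x.1 x.2) :
    ∃ t : Multiset ℂ, (∀ a ∈ t, IsWeil q 1 a) ∧ t.card = (s.map Prod.fst).sum ∧
      t.prod = (s.map Prod.snd).prod ∧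
      Gen q (s + t.map fun a => ((1, (q : ℂ) / a) : ℕ × ℂ)) := by
  induction s using Multiset.induction_on with
  | empty =>
    refine ⟨0, by simp, by simp, by simp, ?_⟩
    have := gen_of_one (GenOne.zero hq)
    simpa using this
  | cons x s ih =>
    obtain ⟨t, ht, hc, hp, hg⟩ := ih fun y hy => hs y (Multiset.mem_cons_of_mem hy)
    obtain ⟨hx, hxW⟩ := hs x (Multiset.mem_cons_self x s)
    obtain ⟨b, hb⟩ := IsAlgClosed.exists_pow_nat_eq x.2 hx
    have hbW : IsWeil q 1 b := hxW.root hx hb
    refine ⟨x.1 • {b} + t, ?_, ?_, ?_, ?_⟩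
    · intro a ha
      rcases Multiset.mem_add.1 ha with ha | ha
      · have := Multiset.mem_of_mem_nsmul ha
        rw [Multiset.mem_singleton] at this
        rw [this]; exact hbW
      · exact ht a ha
    · rw [Multiset.card_add, Multiset.card_nsmul, hc]; simp
    · rw [Multiset.prod_add, Multiset.prod_nsmul, hp]; simp [hb]
    · have h1 := (Gen.power hx hbW).add hg
      rw [hb] at h1
      convert h1 using 1
      rw [Multiset.map_add, Multiset.map_nsmul, Multiset.map_singleton, ← Multiset.singleton_add]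
      abel

/-- Every Tate multiset lies in the closure. -/
theorem gen_of_isTate (hq : 0 < q) {s : Multiset (ℕ × ℂ)} (h : IsTate q s) : Gen q s := by
  obtain ⟨hW, r, N, hc, hN, hp⟩ := h
  obtain ⟨t, ht, htc, htp, hg⟩ := exists_weight_one hq s hW
  have h1 : GenOne q t := by
    refine gen_of_isTateOne hq ⟨fun a ha => isWeil_one.1 (ht a ha), r, N, ?_, hN, ?_⟩
    · rw [htc, hc]
    · rw [htp, hp]
  refine Gen.cancel_map ht ?_
  convert (gen_of_one h1).add hg using 1
  abel

/-- Every element of the closure is a Tate multiset. -/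
theorem isTate_of_gen (hq : 0 < q) {s : Multiset (ℕ × ℂ)} (h : Gen q s) : IsTate q s := by
  have hq' : (q : ℂ) ≠ 0 := by exact_mod_cast hq.ne'
  induction h with
  | pair h => exact h
  | @four a b c ha hb hc h =>
    refine ⟨?_, 2, 1, by simp, one_pos, ?_⟩
    · intro x hx
      simp only [Multiset.insert_eq_cons, mem_cons, mem_singleton] at hx
      rcases hx with rfl | rfl | rfl | rfl
      exacts [⟨one_pos, ha⟩, ⟨one_pos, hb⟩, ⟨one_pos, hc⟩, ⟨one_pos, isWeil_one.2 isWeilOne_root⟩]
    · simp only [Multiset.insert_eq_cons, Multiset.map_cons, Multiset.map_singleton,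
        Multiset.prod_cons, Multiset.prod_singleton]
      have : a * (b * (c * Pool.Agent.ThreeC.root q)) = (a * b * c) * Pool.Agent.ThreeC.root q := by
        ring
      rw [this, h, mul_assoc, ← pow_two, root_sq]; ring
  | @power w b hw hb =>
    have hb0 := hb.ne hq
    refine ⟨?_, w, 1, ?_, one_pos, ?_⟩
    · intro x hx
      rcases Multiset.mem_add.1 hx with hx | hx
      · rw [Multiset.mem_singleton] at hx
        rw [hx]; exact ⟨hw, hb.pow w⟩
      · have := Multiset.mem_of_mem_nsmul hx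
        rw [Multiset.mem_singleton] at this
        rw [this]; exact ⟨one_pos, hb.dual hq⟩
    · rw [Multiset.map_add, Multiset.map_nsmul, Multiset.map_singleton, Multiset.map_singleton,
        Multiset.sum_add, Multiset.sum_nsmul]
      simp; ring
    · rw [Multiset.map_add, Multiset.map_nsmul, Multiset.map_singleton, Multiset.map_singleton,
        Multiset.prod_add, Multiset.prod_nsmul, Multiset.prod_singleton, Multiset.prod_singleton,
        pow_one, mul_one, ← mul_pow, mul_div_cancel₀ _ hb0]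
  | @add s t _ _ ih1 ih2 =>
    obtain ⟨hW1, r1, N1, hc1, hN1, hp1⟩ := ih1
    obtain ⟨hW2, r2, N2, hc2, hN2, hp2⟩ := ih2
    refine ⟨?_, r1 + r2, N1 * N2, ?_, by positivity, ?_⟩
    · intro x hx
      rcases Multiset.mem_add.1 hx with hx | hx
      exacts [hW1 x hx, hW2 x hx]
    · rw [Multiset.map_add, Multiset.sum_add, hc1, hc2]; ring
    · rw [Multiset.map_add, Multiset.prod_add, mul_pow, pow_mul, hp1, mul_comm N1 N2,
        pow_mul (t.map Prod.snd).prod, hp2, ← pow_mul, ← pow_mul, ← pow_add]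
      congr 1; ring
  | @cancel s a ha _ ih =>
    obtain ⟨hW, r, N, hc, hN, hp⟩ := ih
    have hc' : (s.map Prod.fst).sum + 2 = 2 * r := by
      rw [← hc, Multiset.map_add, Multiset.sum_add]
      simp
    obtain ⟨t, rfl⟩ : ∃ t, r = t + 1 := ⟨r - 1, by omega⟩
    refine ⟨fun x hx => hW x (Multiset.mem_add.2 (Or.inl hx)), t, N, by omega, hN, ?_⟩
    have ha0 := ha.ne hq
    have e : ((s + {((1 : ℕ), a), ((1 : ℕ), (q : ℂ) / a)}).map Prod.snd).prod
        = (s.map Prod.snd).prod * q := by
      rw [Multiset.map_add, Multiset.prod_add]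
      simp only [Multiset.insert_eq_cons, Multiset.map_cons, Multiset.map_singleton,
        Multiset.prod_cons, Multiset.prod_singleton]
      rw [mul_div_cancel₀ _ ha0]
    rw [e, mul_pow, add_mul, one_mul, pow_add] at hp
    exact mul_right_cancel₀ (pow_ne_zero N hq') hp

/-- A multiset is a Tate multiset if and only if it is in the closure. -/
theorem isTate_iff_gen (hq : 0 < q) (s : Multiset (ℕ × ℂ)) : IsTate q s ↔ Gen q s :=
  ⟨gen_of_isTate hq, isTate_of_gen hq⟩

end Pool.Agent.ThreeC
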